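import Pool.Agent.Helper36.CV.StmtsG

set_option autoImplicit false

namespace Pool.Agent.Helper36.CV

noncomputable section

/-- square root of 1 + w -/
def k3_S (w : ℂ) : ℂ := Complex.exp (Complex.log (1 + w) / 2)

lemma k3_pos (w : ℂ) (hw : ‖w‖ < 1) : 0 < (1 + w).re := by
  have h1 : |w.re| ≤ ‖w‖ := Complex.abs_re_le_norm w
  have h2 := (abs_le.mp h1).1
  simp only [Complex.add_re, Complex.one_re]
  linarith

lemma k3_slit (w : ℂ) (hw : ‖w‖ < 1) : 1 + w ∈ Complex.slitPlane := Or.inl (k3_pos w hw)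

lemma k3_sq (w : ℂ) (hw : ‖w‖ < 1) : k3_S w * k3_S w = 1 + w := by
  unfold k3_S
  rw [← Complex.exp_add, add_halves, Complex.exp_log (Complex.slitPlane_ne_zero (k3_slit w hw))]

lemma k3_re (w : ℂ) (hw : ‖w‖ < 1) : 0 < (k3_S w).re := by
  unfold k3_S
  rw [Complex.exp_re]
  apply mul_pos (Real.exp_pos _)
  have h1 : |(1 + w).arg| < Real.pi / 2 := Complex.abs_arg_lt_pi_div_two_iff.mpr (Or.inl (k3_pos w hw))
  have h2 := abs_lt.mp h1
  have h3 : (Complex.log (1 + w) / 2).im = (1 + w).arg / 2 := by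
    rw [← Complex.log_im]
    simp
  rw [h3]
  have h5 := Real.pi_pos
  apply Real.cos_pos_of_mem_Ioo
  constructor
  · linarith [h2.1]
  · linarith [h2.2]

lemma k3_add (w : ℂ) (hw : ‖w‖ < 1) : 1 ≤ ‖1 + k3_S w‖ := by
  have h1 := k3_re w hw
  have h2 : |(1 + k3_S w).re| ≤ ‖1 + k3_S w‖ := Complex.abs_re_le_norm _
  have h3 : (1 + k3_S w).re = 1 + (k3_S w).re := by simp
  rw [h3] at h2
  linarith [le_abs_self (1 + (k3_S w).re)]

lemma k3_ne (w : ℂ) (hw : ‖w‖ < 1) : 1 + k3_S w ≠ 0 := by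
  intro h
  have := k3_add w hw
  rw [h, norm_zero] at this
  linarith

lemma k3_sub (w : ℂ) (hw : ‖w‖ < 1) : ‖k3_S w - 1‖ ≤ ‖w‖ := by
  have h1 := k3_sq w hw
  have h2 : (k3_S w - 1) * (1 + k3_S w) = w := by linear_combination h1
  have h3 := k3_add w hw
  calc ‖k3_S w - 1‖ = ‖k3_S w - 1‖ * 1 := by ring
    _ ≤ ‖k3_S w - 1‖ * ‖1 + k3_S w‖ := mul_le_mul_of_nonneg_left h3 (norm_nonneg _)
    _ = ‖w‖ := by rw [← norm_mul, h2]

lemma k3_lo (w : ℂ) (hw : ‖w‖ ≤ 1 / 2) : 1 / 2 ≤ ‖k3_S w‖ := by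
  have h1 := k3_sub w (by linarith)
  have h2 : ‖(1 : ℂ)‖ ≤ ‖k3_S w‖ + ‖k3_S w - 1‖ := by
    calc ‖(1 : ℂ)‖ = ‖k3_S w - (k3_S w - 1)‖ := by congr 1; ring
      _ ≤ ‖k3_S w‖ + ‖k3_S w - 1‖ := norm_sub_le _ _
  rw [norm_one] at h2
  linarith

lemma k3_ne0 (w : ℂ) (_ : ‖w‖ < 1) : k3_S w ≠ 0 := Complex.exp_ne_zero _

lemma k3_diff (w : ℂ) (hw : ‖w‖ < 1) : DifferentiableAt ℂ k3_S w := by
  have h1 : DifferentiableAt ℂ (fun w : ℂ => 1 + w) w := by fun_prop
  have h2 : DifferentiableAt ℂ (fun w : ℂ => Complex.log (1 + w)) w := h1.clog (k3_slit w hw)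
  have h3 : DifferentiableAt ℂ (fun w : ℂ => Complex.exp (Complex.log (1 + w) / 2)) w :=
    (h2.div_const 2).cexp
  exact h3

/-- the argument of the root -/
def k3_w (l z : ℂ) : ℂ := 8 * (z + 1) / l ^ 2

/-- the small root of E (E - l) = 2 (z + 1) -/
def k3_E (l z : ℂ) : ℂ := l * (1 - k3_S (k3_w l z)) / 2

lemma k3_Om {L0 : ℝ} (hL : 100 ≤ L0) {l : ℂ} (hl : l ∈ Om2 L0) : 100 < ‖l‖ ∧ l ≠ 0 ∧ 0 < l.re := by
  have h1 : 100 < ‖l‖ := lt_of_le_of_lt hL hl.1
  refine ⟨h1, ?_, ?_⟩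
  · intro h
    rw [h, norm_zero] at h1
    linarith
  · have := hl.2
    linarith

lemma k3_wb {l z : ℂ} (hl : 100 < ‖l‖) (hz : ‖z‖ < 2) : ‖k3_w l z‖ ≤ 24 / ‖l‖ ^ 2 := by
  unfold k3_w
  rw [norm_div, norm_mul, norm_pow]
  have h1 : ‖z + 1‖ ≤ 3 := by
    calc ‖z + 1‖ ≤ ‖z‖ + ‖(1 : ℂ)‖ := norm_add_le _ _
      _ ≤ 3 := by rw [norm_one]; linarith
  have h2 : ‖(8 : ℂ)‖ = 8 := by simp
  rw [h2]
  gcongr
  linarith

lemma k3_wb1 {l z : ℂ} (hl : 100 < ‖l‖) (hz : ‖z‖ < 2) : ‖k3_w l z‖ ≤ 1 / 2 := by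
  refine (k3_wb hl hz).trans ?_
  rw [div_le_iff₀ (by positivity)]
  nlinarith

lemma k3_eq {l z : ℂ} (hl : 100 < ‖l‖) (hz : ‖z‖ < 2) : k3_E l z * (k3_E l z - l) = 2 * (z + 1) := by
  have h0 : l ≠ 0 := by
    intro h
    rw [h, norm_zero] at hl
    linarith
  have h1 := k3_sq (k3_w l z) (by linarith [k3_wb1 hl hz])
  have h2 : l ^ 2 * k3_w l z = 8 * (z + 1) := by
    unfold k3_w
    field_simp
  unfold k3_E
  linear_combination (l ^ 2 / 4) * h1 + (1 / 4) * h2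

lemma k3_as {l z : ℂ} (hl : 100 < ‖l‖) (hz : ‖z‖ < 2) :
    ‖k3_E l z + 2 * (z + 1) / l‖ ≤ 144 / ‖l‖ ^ 3 := by
  have h0 : l ≠ 0 := by
    intro h
    rw [h, norm_zero] at hl
    linarith
  have hw := k3_wb1 hl hz
  have h1 := k3_sq (k3_w l z) (by linarith)
  have h2 : l ^ 2 * k3_w l z = 8 * (z + 1) := by
    unfold k3_w
    field_simp
  have hn := k3_ne (k3_w l z) (by linarith)
  have h3 : (k3_E l z + 2 * (z + 1) / l) * l * (1 + k3_S (k3_w l z)) = 2 * (z + 1) * (k3_S (k3_w l z) - 1) := by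
    have h4 : (k3_E l z + 2 * (z + 1) / l) * l = l ^ 2 * (1 - k3_S (k3_w l z)) / 2 + 2 * (z + 1) := by
      unfold k3_E
      field_simp
    rw [h4]
    linear_combination (-l ^ 2 / 2) * h1 + (-1 / 2) * h2
  have h5 : ‖z + 1‖ ≤ 3 := by
    calc ‖z + 1‖ ≤ ‖z‖ + ‖(1 : ℂ)‖ := norm_add_le _ _
      _ ≤ 3 := by rw [norm_one]; linarith
  have h6 := k3_add (k3_w l z) (by linarith)
  have h7 := k3_sub (k3_w l z) (by linarith)
  have h8 := k3_wb hl hz
  have h9 : ‖k3_E l z + 2 * (z + 1) / l‖ * ‖l‖ * ‖1 + k3_S (k3_w l z)‖ ≤ 6 * (24 / ‖l‖ ^ 2) := by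
    rw [← norm_mul, ← norm_mul, h3, norm_mul, norm_mul]
    have : ‖(2 : ℂ)‖ = 2 := by simp
    rw [this]
    have h10 : 2 * ‖z + 1‖ ≤ 6 := by linarith
    exact mul_le_mul h10 (h7.trans h8) (norm_nonneg _) (by norm_num)
  have hlp : 0 < ‖l‖ := by linarith
  have h11 : ‖k3_E l z + 2 * (z + 1) / l‖ * ‖l‖ ≤ 6 * (24 / ‖l‖ ^ 2) := by
    refine le_trans ?_ h9
    calc ‖k3_E l z + 2 * (z + 1) / l‖ * ‖l‖ = ‖k3_E l z + 2 * (z + 1) / l‖ * ‖l‖ * 1 := by ring
      _ ≤ _ := mul_le_mul_of_nonneg_left h6 (by positivity)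
  have h12 : 144 / ‖l‖ ^ 3 = 6 * (24 / ‖l‖ ^ 2) / ‖l‖ := by
    field_simp
    norm_num
  rw [h12, le_div_iff₀ hlp]
  exact h11

lemma k3_bd {l z : ℂ} (hl : 100 < ‖l‖) (hz : ‖z‖ < 2) : ‖k3_E l z‖ ≤ 12 / ‖l‖ := by
  have hw := k3_wb1 hl hz
  have h7 := k3_sub (k3_w l z) (by linarith)
  have h8 := k3_wb hl hz
  have hlp : 0 < ‖l‖ := by linarith
  unfold k3_E
  rw [norm_div, norm_mul]
  have h1 : ‖(2 : ℂ)‖ = 2 := by simp
  have h2 : ‖1 - k3_S (k3_w l z)‖ = ‖k3_S (k3_w l z) - 1‖ := norm_sub_rev _ _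
  rw [h1, h2]
  have h3 : ‖l‖ * ‖k3_S (k3_w l z) - 1‖ ≤ ‖l‖ * (24 / ‖l‖ ^ 2) :=
    mul_le_mul_of_nonneg_left (h7.trans h8) hlp.le
  have h4 : ‖l‖ * (24 / ‖l‖ ^ 2) / 2 = 12 / ‖l‖ := by
    field_simp
    norm_num
  rw [← h4]
  gcongr

lemma k3_dw {p : ℂ × ℂ} (hl : p.1 ≠ 0) : DifferentiableAt ℂ (fun p : ℂ × ℂ => k3_w p.1 p.2) p := by
  unfold k3_w
  have h1 : DifferentiableAt ℂ (fun p : ℂ × ℂ => (p.1 ^ 2)⁻¹) p := by
    have h2 : DifferentiableAt ℂ (fun p : ℂ × ℂ => p.1 ^ 2) p := by fun_prop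
    exact h2.inv (pow_ne_zero 2 hl)
  have h3 : DifferentiableAt ℂ (fun p : ℂ × ℂ => 8 * (p.2 + 1)) p := by fun_prop
  have h4 := h3.mul h1
  have h5 : (fun p : ℂ × ℂ => 8 * (p.2 + 1) / p.1 ^ 2) = fun p : ℂ × ℂ => 8 * (p.2 + 1) * (p.1 ^ 2)⁻¹ := by
    funext q
    rw [div_eq_mul_inv]
  rw [h5]
  exact h4

lemma k3_dS {p : ℂ × ℂ} (hl : 100 < ‖p.1‖) (hz : ‖p.2‖ < 2) :
    DifferentiableAt ℂ (fun p : ℂ × ℂ => k3_S (k3_w p.1 p.2)) p := by
  have h0 : p.1 ≠ 0 := by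
    intro h
    rw [h, norm_zero] at hl
    linarith
  have h1 := k3_diff (k3_w p.1 p.2) (by linarith [k3_wb1 hl hz])
  exact DifferentiableAt.comp p (g := k3_S) (f := fun p : ℂ × ℂ => k3_w p.1 p.2) h1 (k3_dw h0)

lemma k3_dE {p : ℂ × ℂ} (hl : 100 < ‖p.1‖) (hz : ‖p.2‖ < 2) :
    DifferentiableAt ℂ (fun p : ℂ × ℂ => k3_E p.1 p.2) p := by
  have h1 := k3_dS hl hz
  unfold k3_E
  fun_prop

lemma k3_dEz {l z : ℂ} (hl : 100 < ‖l‖) (hz : ‖z‖ < 2) : DifferentiableAt ℂ (k3_E l) z := by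
  have h1 : DifferentiableAt ℂ (fun p : ℂ × ℂ => k3_E p.1 p.2) ((l, z) : ℂ × ℂ) := k3_dE hl hz
  have h2 : DifferentiableAt ℂ (fun z : ℂ => ((l, z) : ℂ × ℂ)) z := by fun_prop
  exact DifferentiableAt.comp z (g := fun p : ℂ × ℂ => k3_E p.1 p.2) (f := fun z : ℂ => ((l, z) : ℂ × ℂ)) h1 h2

/-- derivative of the small root -/
lemma k3_der {l z : ℂ} (hl : 100 < ‖l‖) (hz : ‖z‖ < 2) :
    deriv (k3_E l) z * (l * k3_S (k3_w l z)) = -2 := by
  have hd := (k3_dEz hl hz).hasDerivAt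
  have h1 : HasDerivAt (fun z => k3_E l z * (k3_E l z - l))
      (deriv (k3_E l) z * (k3_E l z - l) + k3_E l z * deriv (k3_E l) z) z :=
    hd.mul (hd.sub_const l)
  have h2 : HasDerivAt (fun z : ℂ => 2 * (z + 1)) (2 * 1) z :=
    ((hasDerivAt_id z).add_const 1).const_mul 2
  have hopen : {z : ℂ | ‖z‖ < 2} ∈ nhds z :=
    (isOpen_lt continuous_norm continuous_const).mem_nhds hz
  have h3 : (fun z => k3_E l z * (k3_E l z - l)) =ᶠ[nhds z] (fun z : ℂ => 2 * (z + 1)) := by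
    filter_upwards [hopen] with y hy
    exact k3_eq hl hy
  have h4 := h1.congr_of_eventuallyEq h3.symm
  have h5 := h4.unique h2
  have h6 : 2 * k3_E l z = l * (1 - k3_S (k3_w l z)) := by
    unfold k3_E
    ring
  linear_combination (-1) * h5 + deriv (k3_E l) z * h6

lemma k3_derq {l z : ℂ} (hl : 100 < ‖l‖) (hz : ‖z‖ < 2) :
    ‖deriv (k3_E l) z / deriv (k3_E l) 0 - 1‖ ≤ 64 / ‖l‖ ^ 2 := by
  have h0 : l ≠ 0 := by
    intro h
    rw [h, norm_zero] at hl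
    linarith
  have hz0 : ‖(0 : ℂ)‖ < 2 := by simp
  have ha := k3_der hl hz
  have hb := k3_der hl hz0
  have hwz := k3_wb1 hl hz
  have hw0 := k3_wb1 (z := 0) hl hz0
  have hnz := k3_ne0 (k3_w l z) (by linarith)
  have hn0 := k3_ne0 (k3_w l 0) (by linarith)
  have hz1 := k3_sub (k3_w l z) (by linarith)
  have hz2 := k3_sub (k3_w l 0) (by linarith)
  have hz3 := k3_wb hl hz
  have hz4 : ‖k3_w l 0‖ ≤ 8 / ‖l‖ ^ 2 := by
    unfold k3_w
    rw [norm_div, norm_mul, norm_pow]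
    simp
  have hlo := k3_lo (k3_w l z) hwz
  have h1 : deriv (k3_E l) z = -2 / (l * k3_S (k3_w l z)) := by
    rw [eq_div_iff (mul_ne_zero h0 hnz)]
    exact ha
  have h2 : deriv (k3_E l) 0 = -2 / (l * k3_S (k3_w l 0)) := by
    rw [eq_div_iff (mul_ne_zero h0 hn0)]
    exact hb
  have h3 : deriv (k3_E l) z / deriv (k3_E l) 0 - 1 =
      (k3_S (k3_w l 0) - k3_S (k3_w l z)) / k3_S (k3_w l z) := by
    rw [h1, h2]
    field_simp
  rw [h3, norm_div]
  have h4 : ‖k3_S (k3_w l 0) - k3_S (k3_w l z)‖ ≤ 32 / ‖l‖ ^ 2 := by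
    calc ‖k3_S (k3_w l 0) - k3_S (k3_w l z)‖
        = ‖(k3_S (k3_w l 0) - 1) - (k3_S (k3_w l z) - 1)‖ := by congr 1; ring
      _ ≤ ‖k3_S (k3_w l 0) - 1‖ + ‖k3_S (k3_w l z) - 1‖ := norm_sub_le _ _
      _ ≤ 8 / ‖l‖ ^ 2 + 24 / ‖l‖ ^ 2 := add_le_add (hz2.trans hz4) (hz1.trans hz3)
      _ = 32 / ‖l‖ ^ 2 := by ring
  rw [div_le_iff₀ (by linarith)]
  have h5 : 32 / ‖l‖ ^ 2 ≤ 64 / ‖l‖ ^ 2 * ‖k3_S (k3_w l z)‖ := by
    have h6 : 0 ≤ 64 / ‖l‖ ^ 2 := by positivity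
    calc 32 / ‖l‖ ^ 2 = 64 / ‖l‖ ^ 2 * (1 / 2) := by ring
      _ ≤ _ := mul_le_mul_of_nonneg_left hlo h6
  exact h4.trans h5

lemma k3_derne {l z : ℂ} (hl : 100 < ‖l‖) (hz : ‖z‖ < 2) : deriv (k3_E l) z ≠ 0 := by
  intro h
  have := k3_der hl hz
  rw [h, zero_mul] at this
  norm_num at this

lemma k3_real (l z : ℝ) (hl : 100 < ‖(l : ℂ)‖) (hz : ‖(z : ℂ)‖ < 2) : (k3_E l z).im = 0 := by
  have h1 : k3_w (l : ℂ) (z : ℂ) = ((8 * (z + 1) / l ^ 2 : ℝ) : ℂ) := by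
    unfold k3_w
    push_cast
    ring
  have h2 := k3_wb1 hl hz
  have h3 : 0 ≤ 1 + 8 * (z + 1) / l ^ 2 := by
    rw [h1, Complex.norm_real, Real.norm_eq_abs] at h2
    linarith [(abs_le.mp h2).1]
  have h4 : k3_S (k3_w (l : ℂ) (z : ℂ)) = ((Real.exp (Real.log (1 + 8 * (z + 1) / l ^ 2) / 2) : ℝ) : ℂ) := by
    have h6 : Complex.log (1 + ((8 * (z + 1) / l ^ 2 : ℝ) : ℂ)) = ((Real.log (1 + 8 * (z + 1) / l ^ 2) : ℝ) : ℂ) := by
      rw [Complex.ofReal_log h3, Complex.ofReal_add, Complex.ofReal_one]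
    unfold k3_S
    rw [h1, h6, Complex.ofReal_exp, Complex.ofReal_div]
    rfl
  have h5 : k3_E (l : ℂ) (z : ℂ) =
      ((l * (1 - Real.exp (Real.log (1 + 8 * (z + 1) / l ^ 2) / 2)) / 2 : ℝ) : ℂ) := by
    unfold k3_E
    rw [h4]
    push_cast
    ring
  rw [h5, Complex.ofReal_im]

lemma k3_sign (l : ℝ) (hl : 100 < ‖(l : ℂ)‖) (hl0 : 0 < l) : 0 < -1 * (deriv (k3_E l) 0).re := by
  have hz0 : ‖(0 : ℂ)‖ < 2 := by simp
  have h0 : (l : ℂ) ≠ 0 := by
    intro h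
    rw [h, norm_zero] at hl
    linarith
  have hb := k3_der hl hz0
  have hw0 := k3_wb1 (z := 0) hl hz0
  have hn0 := k3_ne0 (k3_w l 0) (by linarith)
  have hre := k3_re (k3_w l 0) (by linarith)
  have h1 : deriv (k3_E l) 0 = ((-2 / l : ℝ) : ℂ) * (k3_S (k3_w l 0))⁻¹ := by
    have h2 : deriv (k3_E l) 0 = -2 / (l * k3_S (k3_w l 0)) := by
      rw [eq_div_iff (mul_ne_zero h0 hn0)]
      exact hb
    rw [h2]
    push_cast
    field_simp
  rw [h1, Complex.re_ofReal_mul, Complex.inv_re]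
  have h3 : 0 < (k3_S (k3_w l 0)).re / Complex.normSq (k3_S (k3_w l 0)) :=
    div_pos hre (Complex.normSq_pos.mpr hn0)
  have h4 : -1 * (-2 / l * ((k3_S (k3_w l 0)).re / Complex.normSq (k3_S (k3_w l 0)))) =
      2 / l * ((k3_S (k3_w l 0)).re / Complex.normSq (k3_S (k3_w l 0))) := by ring
  rw [h4]
  positivity

theorem st_K3 : ST_K3 := by
  refine ⟨200, 100, by norm_num, by norm_num, fun L0 hL => ⟨?_, ?_⟩⟩
  · have hd : ∀ l : ℂ, deriv (fun z : ℂ => l + 2 * z) = fun _ => 2 := by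
      intro l
      funext z
      have h1 : HasDerivAt (fun z : ℂ => l + 2 * z) (2 * 1) z :=
        ((hasDerivAt_id z).const_mul 2).const_add l
      rw [h1.deriv, mul_one]
    exact {
      oo := Or.inl rfl
      ss := Or.inl rfl
      an_u := differentiableOn_const _
      an_E := by fun_prop
      re_u := fun l z _ => Complex.one_im
      re_E := fun l z _ => by simp
      t0 := fun l z _ => rfl
      t1 := fun l z h => by
        have h1 : XX l (0 + 1) (l + 2 * z) - ((1 : ℝ) : ℂ) * l / 2 = z := by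
          show (l + 2 * z) / 2 - ((1 : ℝ) : ℂ) * l / 2 = z
          push_cast
          ring
        rw [h1]
        have h2 : ‖z‖ < 2 := h.2
        linarith
      t2 := fun l z _ => by
        show (l + 2 * z - l) / 2 = z
        ring
      ub := fun l z _ => by rw [norm_one]; norm_num
      du := fun l z _ => by
        rw [sub_self, norm_zero]
        positivity
      dE0 := fun l z _ => by
        rw [hd l]
        norm_num
      dE := fun l z _ => by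
        rw [hd l]
        have : (2 : ℂ) / 2 - 1 = 0 := by norm_num
        rw [this, norm_zero]
        positivity
      sg := fun l _ => by
        rw [hd l]
        norm_num }
  · refine ⟨fun l z => k3_E l z / 2, k3_E, ?_, ?_⟩
    · have hD : ∀ p : ℂ × ℂ, p ∈ Dom L0 → 100 < ‖p.1‖ ∧ ‖p.2‖ < 2 :=
        fun p h => ⟨(k3_Om hL h.1).1, h.2⟩
      have hB : ∀ l z : ℂ, (l, z) ∈ Dom L0 → ‖k3_E l z / 2‖ ≤ 6 / ‖l‖ := by
        intro l z h
        rw [norm_div]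
        have h1 : ‖(2 : ℂ)‖ = 2 := by simp
        rw [h1]
        have h2 := k3_bd (hD _ h).1 (hD _ h).2
        simp only at h2
        calc ‖k3_E l z‖ / 2 ≤ (12 / ‖l‖) / 2 := by gcongr
          _ = 6 / ‖l‖ := by ring
      have h0 : ∀ l z : ℂ, (l, z) ∈ Dom L0 → (l, (0 : ℂ)) ∈ Dom L0 := fun l z h =>
        ⟨h.1, by show ‖(0 : ℂ)‖ < 2; simp⟩
      exact {
        oo := Or.inr rfl
        ss := Or.inr rfl
        an_u := fun p h => by
          have h1 := (k3_dE (hD p h).1 (hD p h).2).mul_const (1 / 2 : ℂ)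
          have h2 : (fun p : ℂ × ℂ => k3_E p.1 p.2 / 2) = fun p : ℂ × ℂ => k3_E p.1 p.2 * (1 / 2) := by
            funext q
            ring
          show DifferentiableWithinAt ℂ (fun p : ℂ × ℂ => k3_E p.1 p.2 / 2) (Dom L0) p
          rw [h2]
          exact h1.differentiableWithinAt
        an_E := fun p h => (k3_dE (hD p h).1 (hD p h).2).differentiableWithinAt
        re_u := fun l z h => by
          have h1 := k3_real l z (hD _ h).1 (hD _ h).2
          simp [h1]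
        re_E := fun l z h => k3_real l z (hD _ h).1 (hD _ h).2
        t0 := fun l z _ => rfl
        t1 := fun l z h => by
          have h1 : XX l (1 + 1) (k3_E l z) - ((-1 : ℝ) : ℂ) * l / 2 = k3_E l z / 2 := by
            show (k3_E l z - l) / 2 - ((-1 : ℝ) : ℂ) * l / 2 = k3_E l z / 2
            push_cast
            ring
          rw [h1]
          refine (hB l z h).trans ?_
          have h2 := (hD _ h).1
          simp only at h2
          rw [div_le_iff₀ (by linarith)]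
          linarith
        t2 := fun l z h => by
          show 2 * ((k3_E l z - l) / 2) * (k3_E l z / 2) - 1 = z
          have h1 := k3_eq (hD _ h).1 (hD _ h).2
          simp only at h1
          linear_combination (1 / 2) * h1
        ub := fun l z h => by
          refine (hB l z h).trans ?_
          have h2 := (hD _ h).1
          simp only at h2
          rw [div_le_iff₀ (by linarith)]
          linarith
        du := fun l z h => by
          have h2 := (hD _ h).1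
          simp only at h2
          calc ‖k3_E l z / 2 - k3_E l 0 / 2‖ ≤ ‖k3_E l z / 2‖ + ‖k3_E l 0 / 2‖ := norm_sub_le _ _
            _ ≤ 6 / ‖l‖ + 6 / ‖l‖ := add_le_add (hB l z h) (hB l 0 (h0 l z h))
            _ = 12 / ‖l‖ := by ring
            _ ≤ 20 / ‖l‖ := by gcongr; norm_num
        dE0 := fun l z h => k3_derne (hD _ (h0 l z h)).1 (hD _ (h0 l z h)).2
        dE := fun l z h => by
          have h2 := (hD _ h).1
          simp only at h2
          have h1 := k3_derq (hD _ h).1 (hD _ h).2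
          simp only at h1
          refine h1.trans ?_
          rw [div_le_div_iff₀ (by positivity) (by positivity)]
          nlinarith
        sg := fun l h => by
          have h1 := k3_Om hL h
          have h2 := k3_sign l h1.1 h1.2.2
          exact h2
        tt := Or.inr (Or.inl rfl)
        u1 := fun l z h => by
          have h1 : k3_E l z / 2 - ((0 : ℝ) : ℂ) * ((-1 : ℝ) : ℂ) * ((-1 : ℝ) : ℂ) / 2 = k3_E l z / 2 := by
            push_cast
            ring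
          rw [h1]
          refine (hB l z h).trans ?_
          have h2 := (hD _ h).1
          simp only at h2
          gcongr
          norm_num
        dist := fun l z h => by
          have h1 : deriv (k3_E l) z / deriv (k3_E l) 0 - (1 - ((0 : ℝ) : ℂ) * ((-1 : ℝ) : ℂ) * z / l) =
              deriv (k3_E l) z / deriv (k3_E l) 0 - 1 := by
            push_cast
            ring
          rw [h1]
          have h2 := k3_derq (hD _ h).1 (hD _ h).2
          simp only at h2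
          refine h2.trans ?_
          have h3 := (hD _ h).1
          simp only at h3
          gcongr
          norm_num }
    · intro l z h
      have h1 := (k3_Om hL h.1).1
      have h2 : ‖z‖ < 2 := h.2
      refine ⟨k3_eq h1 h2, (k3_as h1 h2).trans ?_⟩
      have h3 : 0 < ‖l‖ := by linarith
      rw [div_le_div_iff₀ (by positivity) (by positivity)]
      have h4 : 0 < ‖l‖ ^ 2 := by positivity
      nlinarith

end

end Pool.Agent.Helper36.CV
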